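import Pool.Agent.Y773.D4.Def

/-!
# (TWF) the conductor of the twisted character
-/

set_option autoImplicit false

open NumberField UniqueFactorizationMonoid

namespace Pool.Agent.Y366.D4

open Pool.Agent.Y773.D4
open Pool.Agent.Y773.G (IsPrimChar)
open scoped Classical

section val

variable {A : Type} [CommRing A] [IsDedekindDomain A]

/-- the multiplicity of `P` in `I` -/
noncomputable def v (P I : Ideal A) : ℕ := (normalizedFactors I).count P

theorem v_mul (P : Ideal A) {I J : Ideal A} (hI : I ≠ 0) (hJ : J ≠ 0) :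
    v P (I * J) = v P I + v P J := by
  unfold v
  rw [normalizedFactors_mul hI hJ, Multiset.count_add]

theorem le_v {P : Ideal A} (hP : Prime P) {I : Ideal A} (hI : I ≠ 0) (k : ℕ) :
    k ≤ v P I ↔ P ^ k ∣ I := by
  rw [pow_dvd_iff_le_emultiplicity, emultiplicity_eq_count_normalizedFactors hP.irreducible hI,
    normalize_eq, Nat.cast_le]
  rfl

theorem v_le_of_dvd (P : Ideal A) {I J : Ideal A} (hI : I ≠ 0) (hJ : J ≠ 0) (h : I ∣ J) :
    v P I ≤ v P J :=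
  Multiset.le_iff_count.1 ((dvd_iff_normalizedFactors_le_normalizedFactors hI hJ).1 h) P

theorem dvd_of_v {I J : Ideal A} (hI : I ≠ 0) (hJ : J ≠ 0)
    (h : ∀ P : Ideal A, Prime P → v P I ≤ v P J) : I ∣ J := by
  rw [dvd_iff_normalizedFactors_le_normalizedFactors hI hJ, Multiset.le_iff_count]
  intro P
  by_cases hP : P ∈ normalizedFactors I
  · exact h P (prime_of_normalized_factor P hP)
  · rw [Multiset.count_eq_zero_of_notMem hP]
    exact Nat.zero_le _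

theorem v_pos {P : Ideal A} (hP : Prime P) {I : Ideal A} (hI : I ≠ 0) :
    1 ≤ v P I ↔ P ∣ I := by
  rw [le_v hP hI, pow_one]

end val

theorem t_twf : St_TL → St_TWS → St_UNR → St_TW := by
  intro hTL hTWS hUNR M _ _ _ σ Nm hrel 𝔣 φ hφ
  have tl := hTL M σ Nm hrel
  obtain ⟨R1, hR1, hR1f, hW⟩ := hTWS M σ Nm hrel 𝔣 φ hφ
  obtain ⟨R2, hR2, hU⟩ := hUNR M σ Nm hrel
  have hR : R1 * R2 ≠ 0 := mul_ne_zero hR1 hR2
  have hRf : ((R1 * R2 : ℕ) : 𝓞 M) ∈ 𝔣 := by
    rw [Nat.cast_mul]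
    exact Ideal.mul_mem_right _ _ hR1f
  refine ⟨R1 * R2, hR, hRf, ?_⟩
  intro q χ hG hex
  have hsub : ∀ p : GaussianInt, ¬ p ∣ ((R1 * R2 : ℕ) : GaussianInt) →
      ¬ p ∣ (R1 : GaussianInt) ∧ ¬ p ∣ (R2 : GaussianInt) := by
    intro p h
    rw [Nat.cast_mul] at h
    exact ⟨fun h' => h (Dvd.dvd.mul_right h' _), fun h' => h (Dvd.dvd.mul_left h' _)⟩
  obtain ⟨𝔠, ψ, h1, h2, h3, h4, h5, h6⟩ := hW q χ hG (by
    obtain ⟨p, hp, hpq, hpR⟩ := hex
    exact ⟨p, hp, hpq, (hsub p hpR).1⟩)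
  -- nonvanishing
  have hc0 : 𝔠 ≠ 0 := h2.ne_bot
  have hf0 : 𝔣 ≠ 0 := hφ.ne_bot
  have hup0 : ∀ z : GaussianInt, z ≠ 0 → up M z ≠ 0 := by
    intro z hz h
    have h' := Ideal.span_singleton_eq_bot.1 h
    apply hz
    apply hrel.inj
    rw [h', map_zero]
  have hupN : ∀ m : ℕ, up M (m : GaussianInt) = Ideal.span {(m : 𝓞 M)} := by
    intro m
    rw [up, map_natCast]
  have hcst : ∀ m : ℕ, m ≠ 0 → (m : GaussianInt) ≠ 0 := by
    intro m hm h
    exact hm (by exact_mod_cast h)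
  have hfR : 𝔣 ∣ up M (R1 : GaussianInt) := by
    rw [hupN, Ideal.dvd_span_singleton]
    exact hR1f
  have hfR' : 𝔣 ∣ Ideal.span {((R1 * R2 : ℕ) : 𝓞 M)} := by
    rw [Ideal.dvd_span_singleton]
    exact hRf
  -- powers of conjugates
  have cj_pow : ∀ (P : Ideal (𝓞 M)) (k : ℕ), cj σ (P ^ k) = cj σ P ^ k := by
    intro P k
    exact Ideal.map_pow _ _ _
  have cj_ne : ∀ I : Ideal (𝓞 M), I ≠ 0 → cj σ I ≠ 0 := by
    intro I hI h
    apply hI
    rw [← tl.cj_cj I, h]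
    exact Ideal.map_bot
  have v_cj : ∀ P : Ideal (𝓞 M), Prime P → ∀ I : Ideal (𝓞 M), I ≠ 0 →
      v P (cj σ I) = v (cj σ P) I := by
    intro P hP I hI
    apply le_antisymm
    · rw [le_v (tl.cj_prime P hP) hI, ← cj_pow]
      have := (le_v hP (cj_ne I hI) _).1 le_rfl
      have := tl.cj_dvd _ _ this
      rwa [tl.cj_cj] at this
    · rw [le_v hP (cj_ne I hI)]
      have := (le_v (tl.cj_prime P hP) hI _).1 le_rfl
      have := tl.cj_dvd _ _ this
      rwa [cj_pow, tl.cj_cj] at this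
  -- (1)
  have key : ∀ d : GaussianInt, d ∣ q → IsCoprime d ((R1 * R2 : ℕ) : GaussianInt) →
      up M d ∣ 𝔠 := by
    intro d hdq hdR
    have hd0 : d ≠ 0 := fun h => hG.q0 (by rw [h] at hdq; exact zero_dvd_iff.1 hdq)
    have hdq' : up M d ∣ up M q := (tl.dvd d q).2 hdq
    refine dvd_of_v (hup0 d hd0) hc0 fun P hP => ?_
    by_cases hPd : P ∣ up M d
    swap
    · have : v P (up M d) = 0 := by
        by_contra h
        exact hPd ((v_pos hP (hup0 d hd0)).1 (Nat.one_le_iff_ne_zero.2 h))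
      rw [this]
      exact Nat.zero_le _
    refine le_trans (v_le_of_dvd P (hup0 d hd0) (hup0 q hG.q0) hdq') ?_
    obtain ⟨p, hp, hPp, hPz⟩ := tl.ovr P hP
    have hpd : p ∣ d := hPz d hPd
    have hpR : ¬ p ∣ ((R1 * R2 : ℕ) : GaussianInt) := fun h =>
      hp.not_isUnit (hdR.isUnit_of_dvd' hpd h)
    obtain ⟨hpR1, hpR2⟩ := hsub p hpR
    obtain ⟨q1, hq1⟩ := dvd_trans hpd hdq
    have hq10 : q1 ≠ 0 := by
      rintro rfl
      exact hG.q0 (by rw [hq1, mul_zero])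
    have hp0 := hup0 p hp.ne_zero
    have hq0 := hup0 q hG.q0
    have hq1' := hup0 q1 hq10
    have hupq : up M q = up M p * up M q1 := by rw [hq1, tl.up_mul]
    have hσ := tl.cj_prime P hP
    have hσp : cj σ P ∣ up M p := by
      have := tl.cj_dvd _ _ hPp
      rwa [tl.cj_up] at this
    have vp : v P (up M p) = 1 := by
      apply le_antisymm
      · by_contra h
        exact hU p hp hpR2 P hP ((le_v hP hp0 2).1 (by omega))
      · exact (v_pos hP hp0).2 hPp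
    have vσp : v (cj σ P) (up M p) = 1 := by
      rw [← v_cj P hP _ hp0, tl.cj_up, vp]
    have hR1' := hup0 R1 (hcst R1 hR1)
    have vR : v P (up M (R1 : GaussianInt)) = 0 := by
      by_contra h
      exact hpR1 (hPz _ ((v_pos hP hR1').1 (Nat.one_le_iff_ne_zero.2 h)))
    have vσR : v (cj σ P) (up M (R1 : GaussianInt)) = 0 := by
      rw [← v_cj P hP _ hR1', tl.cj_up, vR]
    have hcc := cj_ne 𝔠 hc0
    rw [← hupN] at h6
    have e1 : v P 𝔠 ≤ v (cj σ P) 𝔠 := by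
      have := v_le_of_dvd P hc0 (mul_ne_zero hR1' hcc) h6
      rwa [v_mul P hR1' hcc, vR, zero_add, v_cj P hP _ hc0] at this
    have e2 : v (cj σ P) 𝔠 ≤ v P 𝔠 := by
      have := v_le_of_dvd (cj σ P) hc0 (mul_ne_zero hR1' hcc) h6
      rwa [v_mul _ hR1' hcc, vσR, zero_add, v_cj _ hσ _ hc0, tl.cj_cj] at this
    by_contra hlt
    push Not at hlt
    apply h5 p q1 hp hpR1 hq1
    refine dvd_of_v hc0 (mul_ne_zero hf0 hq1') fun Q hQ => ?_
    rw [v_mul Q hf0 hq1']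
    have vq : v P (up M q) = 1 + v P (up M q1) := by rw [hupq, v_mul P hp0 hq1', vp]
    have vσq : v (cj σ P) (up M q1) = v P (up M q1) := by
      rw [← v_cj P hP _ hq1', tl.cj_up]
    by_cases hQp : Q ∣ up M p
    · rcases tl.above p hp P Q hP hQ hPp hQp with h | h
      · rw [h]
        omega
      · rw [h, vσq]
        omega
    · have vQ : v Q (up M p) = 0 := by
        by_contra h
        exact hQp ((v_pos hQ hp0).1 (Nat.one_le_iff_ne_zero.2 h))
      have := v_le_of_dvd Q hc0 (mul_ne_zero hf0 hq0) h3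
      rwa [v_mul Q hf0 hq0, hupq, v_mul Q hp0 hq1', vQ, zero_add] at this
  refine ⟨𝔠, ψ, h1, h2, h3, h4, ?_, key⟩
  intro 𝔞 ha
  by_cases hcop : IsCoprime 𝔞 (𝔣 * up M q)
  · exact h4 𝔞 hcop
  have haf : IsCoprime 𝔞 𝔣 := by
    obtain ⟨J, hJ⟩ := hfR'
    rw [hJ] at ha
    exact ha.of_mul_right_left
  have haq : ¬ IsCoprime 𝔞 (up M q) := fun h => hcop (haf.mul_right h)
  have hchi : chI χ (Nm 𝔞) = 0 := by
    by_contra h
    exact haq ((tl.ne q χ hG 𝔞).1 h)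
  rw [hchi, mul_zero]
  by_cases ha0 : 𝔞 = 0
  · rw [ha0, map_zero]
  by_contra hne
  have hac : IsCoprime 𝔞 𝔠 := (h2.supp 𝔞 ha0).1 hne
  rw [Ideal.isCoprime_iff_sup_eq] at haq
  obtain ⟨P, hPmax, hPle⟩ := Ideal.exists_le_maximal _ haq
  have hPa : P ∣ 𝔞 := Ideal.dvd_iff_le.2 (le_trans le_sup_left hPle)
  have hPq : P ∣ up M q := Ideal.dvd_iff_le.2 (le_trans le_sup_right hPle)
  have hP0 : P ≠ ⊥ := by
    rintro rfl
    exact hup0 q hG.q0 (zero_dvd_iff.1 hPq)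
  have hP : Prime P := Ideal.prime_of_isPrime hP0 hPmax.isPrime
  obtain ⟨p, hp, hPp, hPz⟩ := tl.ovr P hP
  have hpR : ¬ p ∣ ((R1 * R2 : ℕ) : GaussianInt) := by
    intro h
    have h' : P ∣ Ideal.span {((R1 * R2 : ℕ) : 𝓞 M)} := by
      rw [← hupN]
      exact dvd_trans hPp ((tl.dvd _ _).2 h)
    exact hP.not_isUnit (ha.isUnit_of_dvd' hPa h')
  have hpc := key p (hPz q hPq) (hp.irreducible.coprime_iff_not_dvd.2 hpR)
  exact hP.not_isUnit (hac.isUnit_of_dvd' hPa (dvd_trans hPp hpc))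

end Pool.Agent.Y366.D4
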